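import Pool.Agent.Y471.QF.Parts

/-!
# QF-L1B, part 2: estimates
-/

set_option autoImplicit false
set_option maxHeartbeats 400000

namespace Pool.Agent.Y471.QF

open Complex
open Pool.Agent.Y752.QF (fwd cut ff S_L1a)

theorem norm_fwd_iter (f : ℕ → ℂ) (B : ℝ) (j : ℕ) : ∀ n : ℕ, (∀ i ≤ j, ‖f (n + i)‖ ≤ B) →
    ‖fwd^[j] f n‖ ≤ 2 ^ j * B := by
  induction j with
  | zero =>
    intro n h
    simpa using h 0 le_rfl
  | succ j ih =>
    intro n h
    rw [Function.iterate_succ_apply', fwd]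
    have h1 := ih (n + 1) fun i hi => by
      have := h (i + 1) (by omega)
      rwa [show n + (i + 1) = n + 1 + i by ring] at this
    have h2 := ih n fun i hi => h i (by omega)
    calc ‖fwd^[j] f (n + 1) - fwd^[j] f n‖ ≤ ‖fwd^[j] f (n + 1)‖ + ‖fwd^[j] f n‖ :=
          norm_sub_le _ _
      _ ≤ 2 ^ j * B + 2 ^ j * B := add_le_add h1 h2
      _ = 2 ^ (j + 1) * B := by ring

theorem differentiableOn_fwd_iter {U : Set ℂ} (f : ℂ → ℕ → ℂ)
    (hf : ∀ n, DifferentiableOn ℂ (fun s => f s n) U) (j : ℕ) :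
    ∀ n, DifferentiableOn ℂ (fun s => fwd^[j] (f s) n) U := by
  induction j with
  | zero =>
    intro n
    simpa using hf n
  | succ j ih =>
    intro n
    simp only [Function.iterate_succ_apply', fwd]
    exact (ih (n + 1)).sub (ih n)

theorem ff_zero (R : ℕ) (N : ℝ) (s : ℂ) : ff R N s 0 = 0 := by simp [ff]

theorem differentiable_ff (R : ℕ) (N : ℝ) (n : ℕ) : Differentiable ℂ (fun s => ff R N s n) := by
  rcases Nat.eq_zero_or_pos n with h | h
  · subst h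
    simp only [ff_zero]
    exact differentiable_const _
  · unfold ff
    have : (n : ℂ) ≠ 0 := by exact_mod_cast h.ne'
    exact (differentiable_id.neg.const_cpow (Or.inl this)).mul_const _

theorem one_sub_exp_nonneg {x : ℝ} (hx : 0 ≤ x) : 0 ≤ 1 - Real.exp (-x) := by
  have : Real.exp (-x) ≤ 1 := Real.exp_le_one_iff.2 (by linarith)
  linarith

theorem one_sub_exp_le_one {x : ℝ} : 1 - Real.exp (-x) ≤ 1 := by
  have := Real.exp_pos (-x)
  linarith

theorem one_sub_exp_le {x : ℝ} : 1 - Real.exp (-x) ≤ x := by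
  have := Real.add_one_le_exp (-x)
  linarith

theorem norm_natCast_cpow_neg_le_one (n : ℕ) (s : ℂ) (hn : 1 ≤ n) (hs : 0 ≤ s.re) :
    ‖(n : ℂ) ^ (-s)‖ ≤ 1 := by
  rw [Complex.norm_natCast_cpow_of_pos (by omega), neg_re]
  exact Real.rpow_le_one_of_one_le_of_nonpos (by exact_mod_cast hn) (by linarith)

theorem norm_ff_eq (R : ℕ) (N : ℝ) (s : ℂ) (n : ℕ) (hN : 1 ≤ N) :
    ‖ff R N s n‖ = ‖(n : ℂ) ^ (-s)‖ * (1 - Real.exp (-(n / N))) ^ (R + 1) := by
  rw [ff, norm_mul, Complex.norm_real, Real.norm_of_nonneg]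
  exact pow_nonneg (one_sub_exp_nonneg (by positivity)) _

theorem norm_ff_le (R : ℕ) (N : ℝ) (s : ℂ) (n : ℕ) (hN : 1 ≤ N) (hs : 0 ≤ s.re) :
    ‖ff R N s n‖ ≤ (n / N) ^ (R + 1) := by
  rcases Nat.eq_zero_or_pos n with h | h
  · subst h
    simp [ff_zero]
  · rw [norm_ff_eq _ _ _ _ hN]
    have h1 := norm_natCast_cpow_neg_le_one n s h hs
    have h0 : 0 ≤ (n : ℝ) / N := by positivity
    have h2 : (1 - Real.exp (-(n / N))) ^ (R + 1) ≤ ((n : ℝ) / N) ^ (R + 1) :=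
      pow_le_pow_left₀ (one_sub_exp_nonneg h0) one_sub_exp_le _
    have h3 := pow_nonneg (one_sub_exp_nonneg h0) (R + 1)
    calc ‖(n : ℂ) ^ (-s)‖ * (1 - Real.exp (-(n / N))) ^ (R + 1)
        ≤ 1 * (1 - Real.exp (-(n / N))) ^ (R + 1) := mul_le_mul_of_nonneg_right h1 h3
      _ ≤ _ := by rw [one_mul]; exact h2

theorem summable_ff (R : ℕ) (N : ℝ) (s : ℂ) (hN : 1 ≤ N) (hs : 1 < s.re) :
    Summable (ff R N s) := by
  have h1 : Summable fun n : ℕ => (n : ℂ) ^ (-s) := by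
    have := Complex.summable_one_div_nat_cpow.2 hs
    refine this.congr fun n => ?_
    rw [cpow_neg, one_div]
  refine Summable.of_norm_bounded h1.norm fun n => ?_
  rw [norm_ff_eq _ _ _ _ hN]
  have h0 : 0 ≤ (n : ℝ) / N := by positivity
  exact mul_le_of_le_one_right (norm_nonneg _)
    (pow_le_one₀ (one_sub_exp_nonneg h0) one_sub_exp_le_one)

theorem cut_nonneg (R : ℕ) {x : ℝ} (hx : 0 ≤ x) : 0 ≤ cut R x := by
  have := pow_le_one₀ (n := R + 1) (one_sub_exp_nonneg hx) one_sub_exp_le_one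
  unfold cut
  linarith

theorem cut_le (R : ℕ) {x : ℝ} (hx : 0 ≤ x) : cut R x ≤ (R + 1) * Real.exp (-x) := by
  have h1 : Real.exp (-x) ≤ 1 := Real.exp_le_one_iff.2 (by linarith)
  have h := one_add_mul_le_pow (a := -Real.exp (-x)) (by linarith) (R + 1)
  unfold cut
  rw [sub_eq_add_neg 1 (Real.exp (-x))]
  push_cast at h
  linarith

theorem summable_exp (N : ℝ) (hN : 1 ≤ N) : Summable fun n : ℕ => Real.exp (-(n / N)) := by
  have h : Real.exp (-(1 / N)) < 1 := by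
    apply Real.exp_lt_one_iff.2
    have : 0 < 1 / N := by positivity
    linarith
  refine (summable_geometric_of_lt_one (Real.exp_pos _).le h).congr fun n => ?_
  rw [← Real.exp_nat_mul]
  congr 1
  ring

/-- the boundary terms -/
theorem boundary (R : ℕ) (N : ℝ) (s : ℂ) (hN : 1 ≤ N) (hs : 0 ≤ s.re) (j : ℕ) (hj : j ≤ R) :
    ‖fwd^[j] (ff R N s) 0‖ ≤ 2 ^ R * (R / N) ^ (R + 1) := by
  have h := norm_fwd_iter (ff R N s) ((R / N) ^ (R + 1)) j 0 fun i hi => by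
    refine (norm_ff_le R N s _ hN hs).trans ?_
    apply pow_le_pow_left₀ (by positivity)
    have : ((0 + i : ℕ) : ℝ) ≤ R := by exact_mod_cast (by omega : 0 + i ≤ R)
    gcongr
  refine h.trans ?_
  have h2 : (2 : ℝ) ^ j ≤ 2 ^ R := pow_le_pow_right₀ (by norm_num) hj
  exact mul_le_mul_of_nonneg_right h2 (by positivity)

theorem rpow_bound (R : ℕ) (hR : 2 ≤ R) (N : ℝ) (n : ℕ) (hN : 1 ≤ N) (hn : 1 ≤ n) :
    (n : ℝ) ^ (-(1 / 2 : ℝ) - R) * (min 1 (n / N)) ^ (R + 1) ≤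
      4 * N ^ (-(1 / 2 : ℝ) - R) * (N ^ 2 / (N + n) ^ 2) := by
  have hn' : (0 : ℝ) < n := by exact_mod_cast hn
  have hN' : (0 : ℝ) < N := by linarith
  set x : ℝ := n / N with hx
  have hx0 : 0 < x := by positivity
  have e1 : (n : ℝ) = N * x := by rw [hx]; field_simp
  have e2 : N ^ 2 / (N + n) ^ 2 = 1 / (1 + x) ^ 2 := by
    rw [e1]
    rw [div_eq_div_iff (by positivity) (by positivity)]
    ring
  have e3 : (n : ℝ) ^ (-(1 / 2 : ℝ) - R) = N ^ (-(1 / 2 : ℝ) - R) * x ^ (-(1 / 2 : ℝ) - R) := by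
    rw [e1, Real.mul_rpow hN'.le hx0.le]
  have e4 : (4 : ℝ) * N ^ (-(1 / 2 : ℝ) - R) * (1 / (1 + x) ^ 2) =
    N ^ (-(1 / 2 : ℝ) - R) * (4 / (1 + x) ^ 2) := by ring
  rw [e2, e3, e4, mul_assoc]
  apply mul_le_mul_of_nonneg_left _ (by positivity)
  rcases le_total x 1 with h | h
  · rw [min_eq_right h]
    have e5 : x ^ (-(1 / 2 : ℝ) - R) * x ^ (R + 1) = x ^ (1 / 2 : ℝ) := by
      rw [← Real.rpow_natCast x (R + 1), ← Real.rpow_add hx0]
      congr 1
      push_cast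
      ring
    rw [e5]
    have h1 : x ^ (1 / 2 : ℝ) ≤ 1 := Real.rpow_le_one hx0.le h (by norm_num)
    refine h1.trans ?_
    rw [le_div_iff₀ (by positivity)]
    nlinarith
  · rw [min_eq_left h, one_pow, mul_one]
    have h1 : x ^ (-(1 / 2 : ℝ) - R) ≤ x ^ (-(2 : ℝ)) := by
      apply Real.rpow_le_rpow_of_exponent_le h
      have : (2 : ℝ) ≤ R := by exact_mod_cast hR
      linarith
    refine h1.trans ?_
    rw [Real.rpow_neg hx0.le, Real.rpow_ofNat, inv_eq_one_div, div_le_div_iff₀ (by positivity)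
      (by positivity)]
    nlinarith

theorem tele (N : ℝ) (hN : 1 ≤ N) (m : ℕ) :
    ∑ n ∈ Finset.range m, N ^ 2 / (N + n) ^ 2 ≤ 2 * N := by
  have h1 : ∀ n : ℕ, N ^ 2 / (N + n) ^ 2 ≤ 2 * N ^ 2 * (1 / (N + n) - 1 / (N + (n + 1 : ℕ))) := by
    intro n
    have hn : (0 : ℝ) ≤ n := n.cast_nonneg
    have h0 : 0 < N + n := by linarith
    have h2 : 0 < N + (n + 1) := by linarith
    push_cast
    have e : 1 / (N + n) - 1 / (N + (n + 1)) = 1 / ((N + n) * (N + (n + 1))) := by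
      field_simp
      ring
    rw [e, mul_one_div, div_le_div_iff₀ (by positivity) (by positivity)]
    have h3 : (N + n) * (N + (n + 1)) ≤ 2 * (N + n) ^ 2 := by nlinarith
    calc N ^ 2 * ((N + n) * (N + (n + 1))) ≤ N ^ 2 * (2 * (N + n) ^ 2) :=
          mul_le_mul_of_nonneg_left h3 (by positivity)
      _ = _ := by ring
  calc ∑ n ∈ Finset.range m, N ^ 2 / (N + n) ^ 2
      ≤ ∑ n ∈ Finset.range m, 2 * N ^ 2 * (1 / (N + n) - 1 / (N + (n + 1 : ℕ))) :=
        Finset.sum_le_sum fun n _ => h1 n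
    _ = 2 * N ^ 2 * (1 / (N + (0 : ℕ)) - 1 / (N + (m : ℕ))) := by
        rw [← Finset.mul_sum, Finset.sum_range_sub' (fun n : ℕ => 1 / (N + (n : ℝ)))]
    _ ≤ 2 * N ^ 2 * (1 / N) := by
        apply mul_le_mul_of_nonneg_left _ (by positivity)
        have : 0 ≤ 1 / (N + (m : ℝ)) := by positivity
        simp only [Nat.cast_zero, add_zero]
        linarith
    _ = 2 * N := by
        field_simp

theorem tsum_tele (N : ℝ) (hN : 1 ≤ N) : Summable (fun n : ℕ => N ^ 2 / (N + n) ^ 2) ∧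
    ∑' n : ℕ, N ^ 2 / (N + n) ^ 2 ≤ 2 * N :=
  ⟨summable_of_sum_range_le (fun n => by positivity) (tele N hN),
    Real.tsum_le_of_sum_range_le (fun n => by positivity) (tele N hN)⟩

end Pool.Agent.Y471.QF
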