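import Pool.Agent.Y471.QF.Est

/-!
# QF-L1B: the L-function as a smoothed sum
-/

set_option autoImplicit false
set_option maxHeartbeats 400000

namespace Pool.Agent.Y471.QF

open Complex Set
open Pool.Agent.Y752.QF (fwd cut ff S_L1a S_L1 DC cv LL)

theorem cv_zero (p : DC) (h : p.1 ≠ 0) (h1 : p.2 ≠ 1) : cv p 0 = 0 := by
  have h2 : p.1 ≠ 1 := fun h => h1 (DirichletCharacter.level_one' p.2 h)
  haveI : Fact (1 < p.1) := ⟨by omega⟩
  unfold cv
  rw [Nat.cast_zero]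
  exact MulChar.map_nonunit _ not_isUnit_zero

theorem norm_cv_le (p : DC) (n : ℕ) : ‖cv p n‖ ≤ 1 := DirichletCharacter.norm_le_one p.2 _

theorem LL_eq (p : DC) (h : p.1 ≠ 0) (s : ℂ) :
    LL p s = (haveI : NeZero p.1 := ⟨h⟩; DirichletCharacter.LFunction p.2 s) := by
  rw [LL, dif_pos h]

theorem LL_diff (p : DC) (h : p.1 ≠ 0) (h1 : p.2 ≠ 1) : Differentiable ℂ (LL p) := by
  haveI : NeZero p.1 := ⟨h⟩
  have : LL p = DirichletCharacter.LFunction p.2 := funext fun s => LL_eq p h s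
  rw [this]
  exact DirichletCharacter.differentiable_LFunction h1

theorem LL_series (p : DC) (h : p.1 ≠ 0) (h1 : p.2 ≠ 1) {s : ℂ} (hs : 1 < s.re) :
    LL p s = ∑' n : ℕ, cv p n * (n : ℂ) ^ (-s) := by
  haveI : NeZero p.1 := ⟨h⟩
  rw [LL_eq p h, DirichletCharacter.LFunction_eq_LSeries _ hs, LSeries]
  refine tsum_congr fun n => ?_
  rcases Nat.eq_zero_or_pos n with hn | hn
  · subst hn
    rw [LSeries.term_zero, cv_zero p h h1, zero_mul]
  · rw [LSeries.term_of_ne_zero hn.ne', cpow_neg, div_eq_mul_inv]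
    rfl

/-- bound of the terms of the cut series -/
theorem cut_term (p : DC) (h : p.1 ≠ 0) (h1 : p.2 ≠ 1) (R : ℕ) (N : ℝ) (hN : 1 ≤ N) (s : ℂ)
    (hs : 0 ≤ s.re) (n : ℕ) :
    ‖cv p n * (n : ℂ) ^ (-s) * (cut R (n / N) : ℂ)‖ ≤ (R + 1) * Real.exp (-(n / N)) := by
  have hx : 0 ≤ (n : ℝ) / N := by positivity
  rcases Nat.eq_zero_or_pos n with hn | hn
  · subst hn
    rw [cv_zero p h h1, zero_mul, zero_mul, norm_zero]
    positivity
  · rw [norm_mul, norm_mul, Complex.norm_real, Real.norm_of_nonneg (cut_nonneg R hx)]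
    have h2 := norm_natCast_cpow_neg_le_one n s hn hs
    have h3 : ‖cv p n‖ * ‖(n : ℂ) ^ (-s)‖ ≤ 1 :=
      mul_le_one₀ (norm_cv_le p n) (norm_nonneg _) h2
    calc ‖cv p n‖ * ‖(n : ℂ) ^ (-s)‖ * cut R (n / N) ≤ 1 * cut R (n / N) :=
          mul_le_mul_of_nonneg_right h3 (cut_nonneg R hx)
      _ ≤ _ := by rw [one_mul]; exact cut_le R hx

theorem summable_bd (R : ℕ) (N : ℝ) (hN : 1 ≤ N) :
    Summable fun n : ℕ => ((R : ℝ) + 1) * Real.exp (-(n / N)) :=
  (summable_exp N hN).mul_left _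

theorem diff_cut (p : DC) (h : p.1 ≠ 0) (h1 : p.2 ≠ 1) (R : ℕ) (N : ℝ) (hN : 1 ≤ N) (U : Set ℂ)
    (hU : IsOpen U) (hU0 : ∀ s ∈ U, 0 ≤ s.re) :
    DifferentiableOn ℂ (fun s => ∑' n : ℕ, cv p n * (n : ℂ) ^ (-s) * (cut R (n / N) : ℂ)) U := by
  refine differentiableOn_tsum_of_summable_norm (summable_bd R N hN) (fun n => ?_) hU
    fun n s hs => cut_term p h h1 R N hN s (hU0 s hs) n
  rcases Nat.eq_zero_or_pos n with hn | hn
  · subst hn
    simp only [cv_zero p h h1, zero_mul]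
    exact differentiableOn_const _
  · have : (n : ℂ) ≠ 0 := by exact_mod_cast hn.ne'
    exact (((differentiable_id.neg.const_cpow (Or.inl this)).const_mul _).mul_const
      _).differentiableOn

theorem nat_bd (n : ℕ) (hn : 1 ≤ n) (x : ℝ) (hx : 2 ≤ x) :
    (n : ℝ) ^ (-x) ≤ 4 * (1 / ((n : ℝ) + 1) ^ 2) := by
  have hn' : (1 : ℝ) ≤ n := by exact_mod_cast hn
  have h1 : (n : ℝ) ^ (-x) ≤ (n : ℝ) ^ (-(2 : ℝ)) :=
    Real.rpow_le_rpow_of_exponent_le hn' (by linarith)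
  refine h1.trans ?_
  rw [Real.rpow_neg (by linarith), Real.rpow_ofNat, inv_eq_one_div, mul_one_div,
    div_le_div_iff₀ (by positivity) (by positivity)]
  nlinarith

theorem key_eq (h : S_L1a) (R : ℕ) (hR : 2 ≤ R) (p : DC) (hp : p.1 ≠ 0) (hp1 : p.2 ≠ 1) (N : ℝ)
    (hN : 1 ≤ N) (c : ℕ → ℂ) (G : ZMod p.1 → ℂ) (M : ℝ) (hG : ∀ a, ‖G a‖ ≤ M)
    (hcG : ∀ f : ℕ → ℂ, Summable f → ∑' n : ℕ, cv p n * f n =
      ∑ j ∈ Finset.range R, c j * fwd^[j] f 0 + ∑' n : ℕ, G n * fwd^[R] f n) (s : ℂ)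
    (hs1 : 1 / 4 < s.re) (hs2 : s.re < 2) :
    LL p s = ∑' n : ℕ, cv p n * (n : ℂ) ^ (-s) * (cut R (n / N) : ℂ) +
      (∑ j ∈ Finset.range R, c j * fwd^[j] (ff R N s) 0 +
        ∑' n : ℕ, G n * fwd^[R] (ff R N s) n) := by
  obtain ⟨C, hC, hC2⟩ := h R (by omega)
  have hM0 : 0 ≤ M := le_trans (norm_nonneg _) (hG 0)
  set T : ℝ := |s.im| + 1 with hT
  have hT0 : 0 < T := by positivity
  set U : Set ℂ := Ioo (1 / 4 : ℝ) 2 ×ℂ Ioo (-T) T with hU
  have hUo : IsOpen U := isOpen_Ioo.reProdIm isOpen_Ioo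
  have hmem : ∀ z : ℂ, z ∈ U ↔ (1 / 4 < z.re ∧ z.re < 2) ∧ (-T < z.im ∧ z.im < T) := by
    intro z
    rw [hU, Complex.mem_reProdIm, mem_Ioo, mem_Ioo]
  have hUc : Convex ℝ U := by
    have : U = ({z : ℂ | 1 / 4 < z.re} ∩ {z : ℂ | z.re < 2}) ∩
        ({z : ℂ | -T < z.im} ∩ {z : ℂ | z.im < T}) := by
      ext z
      exact hmem z
    rw [this]
    exact ((convex_halfSpace_re_gt _).inter (convex_halfSpace_re_lt _)).inter
      ((convex_halfSpace_im_gt _).inter (convex_halfSpace_im_lt _))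
  have hsU : s ∈ U := by
    rw [hmem]
    have := abs_lt.1 (show |s.im| < T by rw [hT]; linarith)
    exact ⟨⟨hs1, hs2⟩, this.1, this.2⟩
  have hzU : ((3 / 2 : ℝ) : ℂ) ∈ U := by
    rw [hmem, ofReal_re, ofReal_im]
    exact ⟨⟨by norm_num, by norm_num⟩, by linarith, hT0⟩
  have hff : ∀ n, DifferentiableOn ℂ (fun z => ff R N z n) U := fun n =>
    (differentiable_ff R N n).differentiableOn
  set K : ℝ := 4 * C * (2 + T) ^ R + 2 ^ R * (R : ℝ) ^ (R + 1) with hK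
  have hbd : ∀ (n : ℕ) (z : ℂ), z ∈ U →
      ‖G n * fwd^[R] (ff R N z) n‖ ≤ M * K * (1 / ((n : ℝ) + 1) ^ 2) := by
    intro n z hz
    rw [hmem] at hz
    obtain ⟨⟨hz1, hz2⟩, hz3, hz4⟩ := hz
    rw [norm_mul, mul_assoc]
    refine mul_le_mul (hG _) ?_ (norm_nonneg _) hM0
    rcases Nat.eq_zero_or_pos n with hn | hn
    · subst hn
      refine (boundary R N z hN (by linarith) R le_rfl).trans ?_
      have h1 : ((R : ℝ) / N) ^ (R + 1) ≤ (R : ℝ) ^ (R + 1) :=
        pow_le_pow_left₀ (by positivity) (div_le_self (by positivity) hN) _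
      have h2 : 0 ≤ 4 * C * (2 + T) ^ R := by positivity
      have h3 : (2 : ℝ) ^ R * ((R : ℝ) / N) ^ (R + 1) ≤ 2 ^ R * (R : ℝ) ^ (R + 1) :=
        mul_le_mul_of_nonneg_left h1 (by positivity)
      simp only [Nat.cast_zero, zero_add, one_pow, div_one, mul_one]
      linarith
    · refine (hC2 N z n hN hz1.le hz2.le hn).trans ?_
      have h1 : (min 1 ((n : ℝ) / N)) ^ (R + 1) ≤ 1 :=
        pow_le_one₀ (le_min zero_le_one (by positivity)) (min_le_left _ _)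
      have h2 : (2 + |z.im|) ^ R ≤ (2 + T) ^ R := by
        apply pow_le_pow_left₀ (by positivity)
        have := (abs_lt.2 ⟨hz3, hz4⟩).le
        linarith
      have h3 : (n : ℝ) ^ (-z.re - R) ≤ 4 * (1 / ((n : ℝ) + 1) ^ 2) := by
        rw [show -z.re - (R : ℝ) = -(z.re + R) by ring]
        apply nat_bd n hn
        have : (2 : ℝ) ≤ R := by exact_mod_cast hR
        linarith
      have h4 : 0 ≤ (n : ℝ) ^ (-z.re - R) := by positivity
      have h5 : 0 ≤ (2 : ℝ) ^ R * (R : ℝ) ^ (R + 1) * (1 / ((n : ℝ) + 1) ^ 2) := by positivity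
      calc C * (2 + |z.im|) ^ R * (n : ℝ) ^ (-z.re - R) * (min 1 (n / N)) ^ (R + 1)
          ≤ C * (2 + |z.im|) ^ R * (n : ℝ) ^ (-z.re - R) * 1 :=
            mul_le_mul_of_nonneg_left h1 (by positivity)
        _ ≤ C * (2 + T) ^ R * (4 * (1 / ((n : ℝ) + 1) ^ 2)) := by
            rw [mul_one]
            exact mul_le_mul (mul_le_mul_of_nonneg_left h2 hC.le) h3 h4 (by positivity)
        _ ≤ K * (1 / ((n : ℝ) + 1) ^ 2) := by
            rw [hK]
            nlinarith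
  have hsum : Summable fun n : ℕ => M * K * (1 / ((n : ℝ) + 1) ^ 2) := by
    apply Summable.mul_left
    have := (summable_nat_add_iff 1).2 (Real.summable_one_div_nat_pow.2 (by norm_num : 1 < 2))
    exact this.congr fun n => by push_cast; rfl
  have hD : DifferentiableOn ℂ (fun z => ∑' n : ℕ, G n * fwd^[R] (ff R N z) n) U :=
    differentiableOn_tsum_of_summable_norm hsum
      (fun n => (differentiableOn_fwd_iter _ hff R n).const_mul _) hUo hbd
  have hB : DifferentiableOn ℂ (fun z => ∑ j ∈ Finset.range R, c j * fwd^[j] (ff R N z) 0) U :=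
    DifferentiableOn.fun_sum fun j _ => (differentiableOn_fwd_iter _ hff j 0).const_mul _
  have hA := diff_cut p hp hp1 R N hN U hUo fun z hz => by
    rw [hmem] at hz
    linarith [hz.1.1]
  have h1 : AnalyticOnNhd ℂ (LL p) U := (LL_diff p hp hp1).differentiableOn.analyticOnNhd hUo
  have h2 : AnalyticOnNhd ℂ (fun z => ∑' n : ℕ, cv p n * (n : ℂ) ^ (-z) * (cut R (n / N) : ℂ) +
      (∑ j ∈ Finset.range R, c j * fwd^[j] (ff R N z) 0 +
        ∑' n : ℕ, G n * fwd^[R] (ff R N z) n)) U := (hA.add (hB.add hD)).analyticOnNhd hUo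
  have h3 := h1.eqOn_of_preconnected_of_eventuallyEq h2 hUc.isPreconnected hzU ?_
  · exact h3 hsU
  · have hO : IsOpen {z : ℂ | 1 < z.re} := isOpen_lt continuous_const Complex.continuous_re
    filter_upwards [hO.mem_nhds (show ((3 / 2 : ℝ) : ℂ) ∈ {z : ℂ | 1 < z.re} by
      show 1 < (((3 / 2 : ℝ) : ℂ)).re
      rw [ofReal_re]; norm_num)] with z hz
    replace hz : 1 < z.re := hz
    rw [← hcG (ff R N z) (summable_ff R N z hN hz), LL_series p hp hp1 hz]
    have s1 : Summable fun n : ℕ => cv p n * (n : ℂ) ^ (-z) * (cut R (n / N) : ℂ) :=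
      Summable.of_norm_bounded (summable_bd R N hN)
        fun n => cut_term p hp hp1 R N hN z (by linarith) n
    have s2 : Summable fun n : ℕ => cv p n * ff R N z n := by
      refine Summable.of_norm_bounded (summable_ff R N z hN hz).norm fun n => ?_
      rw [norm_mul]
      exact mul_le_of_le_one_left (norm_nonneg _) (norm_cv_le p n)
    rw [← s1.tsum_add s2]
    refine tsum_congr fun n => ?_
    rw [ff, cut]
    push_cast
    ring

theorem L1 (h : S_L1a) : S_L1 := by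
  intro R hR
  obtain ⟨C, hC, hC2⟩ := h R (by omega)
  set K0 : ℝ := 2 ^ R * (R : ℝ) ^ (R + 1) with hK0
  have hK00 : 0 ≤ K0 := by positivity
  set K : ℝ := 4 * C + K0 with hK
  refine ⟨2 ^ R * (R * K0 + 2 * K), by positivity, fun p u N hp hp1 hN => ?_⟩
  haveI : NeZero p.1 := ⟨hp⟩
  have hN0 : 0 < N := by linarith
  obtain ⟨c, G, hG, hc, hcG⟩ := iter R (fun a => p.2 a) 1 (MulChar.sum_eq_zero_of_ne_one hp1)
    (fun a => DirichletCharacter.norm_le_one _ a)
  simp only [mul_one] at hG hc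
  set s : ℂ := 1 / 2 + I * (u : ℂ) with hs
  have hsre : s.re = 1 / 2 := by simp [hs]
  have hsim : s.im = u := by simp [hs]
  rw [key_eq h R hR p hp hp1 N hN c G _ hG hcG s (by rw [hsre]; norm_num) (by rw [hsre]; norm_num),
    add_sub_cancel_left]
  set Q : ℝ := (2 * p.1) ^ R with hQ
  have hQ0 : 0 ≤ Q := by positivity
  set V : ℝ := (2 + |u|) ^ R with hV
  have hV1 : 1 ≤ V := one_le_pow₀ (by linarith [abs_nonneg u])
  set W : ℝ := N ^ (1 / 2 - (R : ℝ)) with hW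
  have hW0 : 0 < W := by positivity
  -- the boundary terms
  have hb0 : ((R : ℝ) / N) ^ (R + 1) = (R : ℝ) ^ (R + 1) * N ^ (-((R : ℝ) + 1)) := by
    rw [div_pow, Real.rpow_neg hN0.le, ← Real.rpow_natCast N (R + 1), Nat.cast_add, Nat.cast_one]
    rfl
  have hb1 : ∀ j ≤ R, ‖fwd^[j] (ff R N s) 0‖ ≤ K0 * N ^ (-((R : ℝ) + 1)) := by
    intro j hj
    refine (boundary R N s hN (by rw [hsre]; norm_num) j hj).trans ?_
    rw [hb0, hK0, mul_assoc]
  have hB : ‖∑ j ∈ Finset.range R, c j * fwd^[j] (ff R N s) 0‖ ≤ R * (Q * (K0 * W)) := by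
    calc ‖∑ j ∈ Finset.range R, c j * fwd^[j] (ff R N s) 0‖
        ≤ ∑ j ∈ Finset.range R, ‖c j * fwd^[j] (ff R N s) 0‖ := norm_sum_le _ _
      _ ≤ ∑ j ∈ Finset.range R, Q * (K0 * W) := by
          refine Finset.sum_le_sum fun j hj => ?_
          rw [norm_mul]
          have hj' := Finset.mem_range.1 hj
          refine mul_le_mul (hc j hj') ((hb1 j hj'.le).trans ?_) (norm_nonneg _) hQ0
          apply mul_le_mul_of_nonneg_left _ hK00
          exact Real.rpow_le_rpow_of_exponent_le hN (by linarith)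
      _ = R * (Q * (K0 * W)) := by rw [Finset.sum_const, Finset.card_range, nsmul_eq_mul]
  -- the main term
  have hterm : ∀ n : ℕ, ‖G n * fwd^[R] (ff R N s) n‖ ≤
      Q * (K * V * N ^ (-(1 / 2 : ℝ) - R)) * (N ^ 2 / (N + n) ^ 2) := by
    intro n
    rw [norm_mul, mul_assoc]
    refine mul_le_mul (hG _) ?_ (norm_nonneg _) hQ0
    rcases Nat.eq_zero_or_pos n with hn | hn
    · subst hn
      refine (hb1 R le_rfl).trans ?_
      have e1 : N ^ 2 / (N + ((0 : ℕ) : ℝ)) ^ 2 = 1 := by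
        rw [Nat.cast_zero, add_zero, div_self (by positivity)]
      rw [e1, mul_one]
      have h1 : N ^ (-((R : ℝ) + 1)) ≤ N ^ (-(1 / 2 : ℝ) - R) :=
        Real.rpow_le_rpow_of_exponent_le hN (by linarith)
      have h2 : K0 ≤ K * V := by
        have : K0 ≤ K := by rw [hK]; linarith
        calc K0 ≤ K := this
          _ ≤ K * V := le_mul_of_one_le_right (by positivity) hV1
      exact mul_le_mul h2 h1 (by positivity) (by positivity)
    · refine (hC2 N s n hN (by rw [hsre]; norm_num) (by rw [hsre]; norm_num) hn).trans ?_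
      rw [hsre, hsim, ← hV]
      have h1 := rpow_bound R hR N n hN hn
      have h2 : 0 ≤ N ^ (-(1 / 2 : ℝ) - R) * (N ^ 2 / (N + n) ^ 2) := by positivity
      calc C * V * (n : ℝ) ^ (-(1 / 2 : ℝ) - R) * (min 1 (n / N)) ^ (R + 1)
          = C * V * ((n : ℝ) ^ (-(1 / 2 : ℝ) - R) * (min 1 (n / N)) ^ (R + 1)) := by ring
        _ ≤ C * V * (4 * N ^ (-(1 / 2 : ℝ) - R) * (N ^ 2 / (N + n) ^ 2)) :=
            mul_le_mul_of_nonneg_left h1 (by positivity)
        _ = (4 * C) * (V * (N ^ (-(1 / 2 : ℝ) - R) * (N ^ 2 / (N + n) ^ 2))) := by ring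
        _ ≤ K * (V * (N ^ (-(1 / 2 : ℝ) - R) * (N ^ 2 / (N + n) ^ 2))) := by
            apply mul_le_mul_of_nonneg_right _ (by positivity)
            rw [hK]
            linarith
        _ = _ := by ring
  obtain ⟨hs1, hs2⟩ := tsum_tele N hN
  have hsum := hs1.mul_left (Q * (K * V * N ^ (-(1 / 2 : ℝ) - R)))
  have hD : ‖∑' n : ℕ, G n * fwd^[R] (ff R N s) n‖ ≤ Q * (K * V * (2 * W)) := by
    have h1 : ‖∑' n : ℕ, G n * fwd^[R] (ff R N s) n‖ ≤
        ∑' n : ℕ, Q * (K * V * N ^ (-(1 / 2 : ℝ) - R)) * (N ^ 2 / (N + n) ^ 2) :=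
      tsum_of_norm_bounded hsum.hasSum hterm
    refine h1.trans ?_
    rw [tsum_mul_left]
    calc Q * (K * V * N ^ (-(1 / 2 : ℝ) - R)) * ∑' n : ℕ, N ^ 2 / (N + (n : ℝ)) ^ 2
        ≤ Q * (K * V * N ^ (-(1 / 2 : ℝ) - R)) * (2 * N) :=
          mul_le_mul_of_nonneg_left hs2 (by positivity)
      _ = Q * (K * V * (2 * (N ^ (-(1 / 2 : ℝ) - R) * N))) := by ring
      _ = Q * (K * V * (2 * W)) := by
          congr 3
          rw [hW, ← Real.rpow_add_one hN0.ne']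
          congr 1
          ring
  have hQe : Q = 2 ^ R * (p.1 : ℝ) ^ R := by rw [hQ, mul_pow]
  calc ‖∑ j ∈ Finset.range R, c j * fwd^[j] (ff R N s) 0 + ∑' n : ℕ, G n * fwd^[R] (ff R N s) n‖
      ≤ R * (Q * (K0 * W)) + Q * (K * V * (2 * W)) := (norm_add_le _ _).trans (add_le_add hB hD)
    _ ≤ R * (Q * (K0 * W)) * V + Q * (K * V * (2 * W)) :=
        add_le_add (le_mul_of_one_le_right (by positivity) hV1) le_rfl
    _ = 2 ^ R * (R * K0 + 2 * K) * (p.1 : ℝ) ^ R * V * W := by rw [hQe]; ring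

end Pool.Agent.Y471.QF
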