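import Pool.Agent.Y752.QF.Stm

/-!
# QF-L1B, part 1: repeated summation by parts against a periodic function of mean zero
-/

set_option autoImplicit false
set_option maxHeartbeats 400000

namespace Pool.Agent.Y471.QF

open Complex
open Pool.Agent.Y752.QF (fwd)

theorem sum_range_zmod {q : ℕ} [NeZero q] (g : ZMod q → ℂ) :
    ∑ i ∈ Finset.range q, g (i : ZMod q) = ∑ a, g a := by
  refine Finset.sum_nbij' (fun i => (i : ZMod q)) ZMod.val ?_ ?_ ?_ ?_ ?_
  · intro i _; exact Finset.mem_univ _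
  · intro a _; exact Finset.mem_range.2 (ZMod.val_lt a)
  · intro i hi; exact ZMod.val_cast_of_lt (Finset.mem_range.1 hi)
  · intro a _; exact ZMod.natCast_zmod_val a
  · intro i _; rfl

/-- antidifference on `ZMod q` -/
theorem anti {q : ℕ} [NeZero q] (g : ZMod q → ℂ) (hg : ∑ a, g a = 0) (M : ℝ)
    (hM : ∀ a, ‖g a‖ ≤ M) :
    ∃ G : ZMod q → ℂ, ∑ a, G a = 0 ∧ (∀ a, G a - G (a - 1) = g a) ∧ ∀ a, ‖G a‖ ≤ 2 * q * M := by
  have hM0 : 0 ≤ M := le_trans (norm_nonneg _) (hM 0)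
  have hq : 0 < q := Nat.pos_of_ne_zero (NeZero.ne q)
  have hq' : (q : ℂ) ≠ 0 := by exact_mod_cast hq.ne'
  let G0 : ZMod q → ℂ := fun a => ∑ i ∈ Finset.range (a.val + 1), g (i : ZMod q)
  have hG0 : ∀ a, ‖G0 a‖ ≤ q * M := by
    intro a
    calc ‖G0 a‖ ≤ ∑ i ∈ Finset.range (a.val + 1), ‖g (i : ZMod q)‖ := norm_sum_le _ _
      _ ≤ ∑ i ∈ Finset.range (a.val + 1), M := Finset.sum_le_sum fun i _ => hM _
      _ = ((a.val + 1 : ℕ) : ℝ) * M := by rw [Finset.sum_const, Finset.card_range, nsmul_eq_mul]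
      _ ≤ q * M := by
        apply mul_le_mul_of_nonneg_right _ hM0
        exact_mod_cast ZMod.val_lt a
  have hstep : ∀ a, G0 a - G0 (a - 1) = g a := by
    intro a
    set n := (a - 1).val with hn
    have hn' : n < q := ZMod.val_lt _
    have ha : a = ((n + 1 : ℕ) : ZMod q) := by
      rw [Nat.cast_add, Nat.cast_one, hn, ZMod.natCast_zmod_val]
      ring
    have h1 : G0 (a - 1) = ∑ i ∈ Finset.range (n + 1), g (i : ZMod q) := rfl
    rcases Nat.lt_or_ge (n + 1) q with h | h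
    · have h2 : a.val = n + 1 := by rw [ha, ZMod.val_cast_of_lt h]
      have h3 : G0 a = ∑ i ∈ Finset.range (n + 1 + 1), g (i : ZMod q) := by
        simp only [G0]
        rw [h2]
      rw [h3, h1, Finset.sum_range_succ]
      rw [add_sub_cancel_left, ← ha]
    · have h2 : n + 1 = q := by omega
      have h3 : a = 0 := by rw [ha, h2, ZMod.natCast_self]
      have h4 : G0 (a - 1) = 0 := by rw [h1, h2, sum_range_zmod, hg]
      have h5 : G0 a = g 0 := by
        simp only [G0]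
        rw [h3, ZMod.val_zero]
        simp
      rw [h4, h5, h3, sub_zero]
  refine ⟨fun a => G0 a - (∑ b, G0 b) / q, ?_, ?_, ?_⟩
  · rw [Finset.sum_sub_distrib, Finset.sum_const, Finset.card_univ, ZMod.card, nsmul_eq_mul,
      mul_div_cancel₀ _ hq', sub_self]
  · intro a
    rw [← hstep a]
    ring
  · intro a
    have h1 : ‖(∑ b, G0 b) / (q : ℂ)‖ ≤ q * M := by
      rw [norm_div, Complex.norm_natCast, div_le_iff₀ (by exact_mod_cast hq)]
      calc ‖∑ b, G0 b‖ ≤ ∑ b : ZMod q, ‖G0 b‖ := norm_sum_le _ _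
        _ ≤ ∑ b : ZMod q, q * M := Finset.sum_le_sum fun b _ => hG0 b
        _ = q * M * q := by
          rw [Finset.sum_const, Finset.card_univ, ZMod.card, nsmul_eq_mul]
          ring
    calc ‖G0 a - (∑ b, G0 b) / q‖ ≤ ‖G0 a‖ + ‖(∑ b, G0 b) / (q : ℂ)‖ := norm_sub_le _ _
      _ ≤ q * M + q * M := add_le_add (hG0 a) h1
      _ = 2 * q * M := by ring

theorem summable_per {q : ℕ} [NeZero q] (G : ZMod q → ℂ) (M : ℝ) (hM : ∀ a, ‖G a‖ ≤ M)
    (f : ℕ → ℂ) (hf : Summable f) (φ : ℕ → ZMod q) : Summable fun n => G (φ n) * f n := by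
  have h : Summable fun n => M * ‖f n‖ := hf.norm.mul_left M
  refine Summable.of_norm_bounded h fun n => ?_
  rw [norm_mul]
  exact mul_le_mul_of_nonneg_right (hM _) (norm_nonneg _)

/-- summation by parts -/
theorem parts {q : ℕ} [NeZero q] (g G : ZMod q → ℂ) (hG : ∀ a, G a - G (a - 1) = g a) (M : ℝ)
    (hM : ∀ a, ‖G a‖ ≤ M) (f : ℕ → ℂ) (hf : Summable f) :
    ∑' n : ℕ, g n * f n = - G (-1) * f 0 - ∑' n : ℕ, G n * fwd f n := by
  have hf1 : Summable fun n => f (n + 1) := (summable_nat_add_iff 1).2 hf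
  have s1 : Summable fun n : ℕ => G n * f n := summable_per G M hM f hf fun n => n
  have s2 : Summable fun n : ℕ => G ((n : ZMod q) - 1) * f n :=
    summable_per G M hM f hf fun n => (n : ZMod q) - 1
  have s3 : Summable fun n : ℕ => G n * f (n + 1) := summable_per G M hM _ hf1 fun n => n
  have e1 : ∑' n : ℕ, g n * f n = ∑' n : ℕ, G n * f n - ∑' n : ℕ, G ((n : ZMod q) - 1) * f n := by
    rw [← s1.tsum_sub s2]
    refine tsum_congr fun n => ?_
    rw [← hG]
    ring
  have e2 : ∑' n : ℕ, G ((n : ZMod q) - 1) * f n = G (-1) * f 0 + ∑' n : ℕ, G n * f (n + 1) := by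
    rw [s2.tsum_eq_zero_add]
    congr 1
    · rw [Nat.cast_zero, zero_sub]
    · refine tsum_congr fun n => ?_
      rw [Nat.cast_add, Nat.cast_one, add_sub_cancel_right]
  have e3 : ∑' n : ℕ, G n * fwd f n = ∑' n : ℕ, G n * f (n + 1) - ∑' n : ℕ, G n * f n := by
    rw [← s3.tsum_sub s1]
    refine tsum_congr fun n => ?_
    rw [fwd]
    ring
  rw [e1, e2, e3]
  ring

theorem summable_fwd (f : ℕ → ℂ) (hf : Summable f) : Summable (fwd f) :=
  ((summable_nat_add_iff 1).2 hf).sub hf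

theorem iter {q : ℕ} [NeZero q] (R : ℕ) : ∀ (g : ZMod q → ℂ) (M : ℝ), ∑ a, g a = 0 →
    (∀ a, ‖g a‖ ≤ M) → ∃ (c : ℕ → ℂ) (G : ZMod q → ℂ), (∀ a, ‖G a‖ ≤ (2 * q) ^ R * M) ∧
      (∀ j < R, ‖c j‖ ≤ (2 * q) ^ R * M) ∧ ∀ f : ℕ → ℂ, Summable f →
        ∑' n : ℕ, g n * f n = ∑ j ∈ Finset.range R, c j * fwd^[j] f 0 +
          ∑' n : ℕ, G n * fwd^[R] f n := by
  have hq : (1 : ℝ) ≤ 2 * q := by
    have : (1 : ℝ) ≤ q := by exact_mod_cast Nat.one_le_iff_ne_zero.2 (NeZero.ne q)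
    linarith
  induction R with
  | zero =>
    intro g M _ hM
    refine ⟨fun _ => 0, g, by simpa using hM, by simp, fun f _ => by simp⟩
  | succ R ih =>
    intro g M hg hM
    have hM0 : 0 ≤ M := le_trans (norm_nonneg _) (hM 0)
    obtain ⟨G1, h1, h2, h3⟩ := anti g hg M hM
    obtain ⟨c, G, h4, h5, h6⟩ := ih G1 (2 * q * M) h1 h3
    have e : (2 * (q : ℝ)) ^ R * (2 * q * M) = (2 * q) ^ (R + 1) * M := by ring
    refine ⟨fun j => if j = 0 then - G1 (-1) else - c (j - 1), fun a => - G a, ?_, ?_, ?_⟩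
    · intro a
      rw [norm_neg, ← e]
      exact h4 a
    · intro j hj
      by_cases h0 : j = 0
      · simp only [h0, if_true, norm_neg]
        refine (h3 (-1)).trans ?_
        rw [← e]
        exact le_mul_of_one_le_left (by positivity) (one_le_pow₀ hq)
      · simp only [h0, if_false, norm_neg]
        rw [← e]
        exact h5 _ (by omega)
    · intro f hf
      rw [parts g G1 h2 _ h3 f hf, h6 (fwd f) (summable_fwd f hf), Finset.sum_range_succ']
      simp only [Nat.add_eq_zero_iff, one_ne_zero, and_false, if_false, if_true,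
        Nat.add_sub_cancel, Function.iterate_succ_apply, Function.iterate_zero, id_eq, neg_mul,
        Finset.sum_neg_distrib, tsum_neg]
      ring

end Pool.Agent.Y471.QF
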